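import Pool.Agent.Q62.QD.NonH
import Pool.Agent.Q62.QD.Unif

/-!
# The uniform Anderson model at weak disorder: localization length at every energy of the bulk

`Δ_ω = -Δ + ω` on `ℤ^d`, `d ≥ 3`, `ω_x` iid uniform on `[-c, c]`. Energies `e` are taken in the bulk,
`κ ≤ e ≤ 4d - κ`. For every `ε > 0` there is `δ > 0` such that for all `c ≤ c₀(d, κ, ε)`, with
probability at least `1 - exp(-c^{-1/101})`, the following holds for all such `e`, all window sizes `η`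
with `c^{2+1/40} ≤ η ≤ c^{2+1/80}` and all `R` with `c^{-1} ≤ R ≤ δ (η c²)^{-1/2}` (for the smallest `η`
this is `δ c^{-2-1/80}`).

1. For every site `|a| ≤ exp(c^{-1/101})` and every orthonormal family of eigenfunctions `φ_i` with
   eigenvalues in `[e - η, e + η]`, localized in `B(a, R)` (mass outside at most `R^{-d-1}`),
   `∑_i |φ_i(a)|² ≤ ε η`.
2. For all `L` with `R ≤ L`, `L + R ≤ exp(c^{-1/101})` every orthonormal family `φ_1, …, φ_n` of
   eigenfunctions with eigenvalues in `[e - η, e + η]` and localized in balls `B(y_i, R)`, `|y_i| ≤ L`,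
   has `n ≤ ε η (2L+1)^d`.

The number of all states with energies in the window is of the order `η (2L+1)^d`: in every such window
(much shorter than `c²`) at most a fraction `ε` of the states is localized on a scale below
`δ c^{-2-1/80}`.
-/

set_option autoImplicit false

open scoped BigOperators Topology
open MeasureTheory Filter

namespace Pool.Agent.Results.MP_562b47_mp.LocalizationWindows

/-- the uniform law on `[-c, c]` -/
noncomputable def unif (c : ℝ) : Measure ℝ :=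
  ENNReal.ofReal (1 / (2 * c)) • volume.restrict (Set.Icc (-c) c)

/-- `(Δ_ω u)(j) = -∑_{|n|=1} (u(j+n) - u(j)) + ω_j u(j)` -/
noncomputable def H {d : ℕ} (ω : (Fin d → ℤ) → ℝ) (u : (Fin d → ℤ) → ℂ) (j : Fin d → ℤ) : ℂ :=
  -∑ i : Fin d, ((u (j + Pi.single i 1) - u j) + (u (j - Pi.single i 1) - u j)) + (ω j : ℂ) * u j

/-- `(φ_i)` is an orthonormal family of eigenfunctions of `Δ_ω` in `ℓ²(ℤ^d)`, with eigenvalues in
`[e - η, e + η]` -/
structure IsEigenfamily {d : ℕ} (ω : (Fin d → ℤ) → ℝ) (e η : ℝ) {n : ℕ}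
    (φ : Fin n → (Fin d → ℤ) → ℂ) : Prop where
  norm : ∀ i, HasSum (fun x => ‖φ i x‖ ^ 2) 1
  orth : ∀ i j, i ≠ j → ∑' x, (starRingEnd ℂ) (φ i x) * φ j x = 0
  eig : ∀ i, ∃ E : ℝ, |E - e| ≤ η ∧ ∀ x, H ω (φ i) x = (E : ℂ) * φ i x

open Classical in
/-- the mass `∑_{|x - y| > R} |u(x)|²` of `u` outside the ball `B(y, R)` -/
noncomputable def massOutside {d : ℕ} (u : (Fin d → ℤ) → ℂ) (y : Fin d → ℤ) (R : ℝ) : ℝ :=
  ∑' x, if R < ‖x - y‖ then ‖u x‖ ^ 2 else 0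

theorem IsEigenfamily.fam {d : ℕ} {c : ℝ} (hc : 0 < c) {ω : (Fin d → ℤ) → ℝ} {e η : ℝ} {n : ℕ}
    {φ : Fin n → (Fin d → ℤ) → ℂ} (h : IsEigenfamily ω e η φ) :
    Pool.Agent.Q62.QD.FamW d (fun x => 2 * d + c * (ω x / c)) e η φ := by
  refine ⟨h.norm, h.orth, fun i => ?_⟩
  obtain ⟨E, hE1, hE⟩ := h.eig i
  refine ⟨E, hE1, fun x => ?_⟩
  rw [← hE x]
  unfold H Pool.Agent.W788.LD.Spec.S
  have h2 : ∑ k : Fin d, ((φ i (x + Pi.single k 1) - φ i x) + (φ i (x - Pi.single k 1) - φ i x)) =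
      ∑ k : Fin d, (φ i (x + Pi.single k 1) + φ i (x - Pi.single k 1)) -
        2 * (d : ℂ) * φ i x := by
    rw [Finset.sum_add_distrib, Finset.sum_sub_distrib, Finset.sum_sub_distrib,
      Finset.sum_add_distrib]
    simp
    ring
  have h3 : c * (ω x / c) = ω x := by field_simp
  rw [h2, h3]
  push_cast
  ring

open Classical in
theorem mass_eq {d : ℕ} (u : (Fin d → ℤ) → ℂ) (y : Fin d → ℤ) (R : ℝ) :
    massOutside u y R = ∑' x, (if ‖x - y‖ ≤ R then 0 else ‖u x‖ ^ 2) := by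
  unfold massOutside
  refine tsum_congr fun x => ?_
  by_cases h : ‖x - y‖ ≤ R
  · rw [if_pos h, if_neg (not_lt.2 h)]
  · rw [if_neg h, if_pos (not_le.1 h)]

/-- **Theorem.** -/
theorem result (d : ℕ) (hd : 3 ≤ d) (κ : ℝ) (hκ : 0 < κ) (hκ1 : κ ≤ 1) (ε : ℝ) (hε : 0 < ε) :
    ∃ δ c0 : ℝ, 0 < δ ∧ 0 < c0 ∧ ∀ c : ℝ, 0 < c → c ≤ c0 →
      ∃ G : Set ((Fin d → ℤ) → ℝ), MeasurableSet G ∧
        1 - Real.exp (-c ^ (-(1 / 101) : ℝ)) ≤
          (Measure.infinitePi fun _ : Fin d → ℤ => unif c).real G ∧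
        ∀ ω ∈ G, ∀ e : ℝ, κ ≤ e → e ≤ 4 * d - κ →
          ∀ η : ℝ, c ^ (2 + 1 / 40 : ℝ) ≤ η → η ≤ c ^ (2 + 1 / 80 : ℝ) →
          ∀ R : ℝ, 1 / c ≤ R → R * Real.sqrt (η * c ^ 2) ≤ δ →
          -- (1) the localized eigenfunctions of the window have almost no weight at any site `a`
          (∀ a : Fin d → ℤ, ‖a‖ ≤ Real.exp (c ^ (-(1 / 101) : ℝ)) →
            ∀ (n : ℕ) (φ : Fin n → (Fin d → ℤ) → ℂ), IsEigenfamily ω e η φ →
            (∀ i, massOutside (φ i) a R ≤ 1 / R ^ (d + 1)) → ∑ i, ‖φ i a‖ ^ 2 ≤ ε * η) ∧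
          -- (2) counting localized eigenfunctions of the window in boxes
          ∀ L : ℝ, R ≤ L → L + R ≤ Real.exp (c ^ (-(1 / 101) : ℝ)) →
            ∀ (n : ℕ) (φ : Fin n → (Fin d → ℤ) → ℂ) (y : Fin n → Fin d → ℤ),
            IsEigenfamily ω e η φ → (∀ i, ‖y i‖ ≤ L) →
            (∀ i, massOutside (φ i) (y i) R ≤ 1 / R ^ (d + 1)) →
            (n : ℝ) ≤ ε * η * (2 * L + 1) ^ d := by
  obtain ⟨δ, hδ, c0, hc0, h⟩ := Pool.Agent.Q62.QD.windows (d := d) (by omega) κ hκ hκ1 1 (1 / 3) ε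
    one_pos (by norm_num) hε
  refine ⟨δ, c0, hδ, hc0, fun c hc hcc => ?_⟩
  obtain ⟨G, hG, hP, hL⟩ := h c hc hcc (Pool.Agent.W788.LD.Uni.unif 1)
    (Pool.Agent.W788.LD.Uni.unif_prob 1 one_pos) (Pool.Agent.W788.LD.Uni.unif_bdd 1) 0 (1 / 3)
    (Pool.Agent.W788.LD.Uni.unif_mean 1 one_pos) Pool.Agent.Q62.QD.unif_var le_rfl
  obtain ⟨hG', hP'⟩ := Pool.Agent.Q62.QD.unif_transfer c hc G hG _ hP
  refine ⟨(fun (ω : (Fin d → ℤ) → ℝ) x => ω x / c) ⁻¹' G, hG', hP',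
    fun ω hω e he1 he2 η hη1 hη2 R hR1 hR2 => ?_⟩
  have hd3 : (3 : ℝ) ≤ d := by exact_mod_cast hd
  obtain ⟨h1, h2⟩ := hL _ hω e (by
    have h3 : |2 * (d : ℝ) + c * 0 - e| ≤ 2 * d - κ := by
      rw [abs_le]
      constructor <;> linarith
    exact ⟨Or.inr ⟨hd, by linarith⟩, h3⟩) η
    (by
      have e5 : (81 / 40 : ℝ) = 2 + 1 / 40 := by norm_num
      rw [e5]
      exact hη1)
    (by
      have e5 : (161 / 80 : ℝ) = 2 + 1 / 80 := by norm_num
      rw [e5]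
      exact hη2) R hR1 hR2
  have e1 : 1 / R ^ (d + 1) = (1 / R) ^ (d + 1) := by
    rw [div_pow, one_pow]
  constructor
  · intro a ha n φ hφ ht
    exact h1 a ha (Fin n) φ (hφ.fam hc) fun i => by
      rw [← mass_eq, ← e1]
      exact ht i
  · intro L hRL hLR n φ y hφ hy ht
    exact h2 L hRL hLR n φ y (hφ.fam hc) hy fun i => by
      rw [← mass_eq, ← e1]
      exact ht i

end Pool.Agent.Results.MP_562b47_mp.LocalizationWindows
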