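import Pool.Agent.Q62.QD.MsdB
import Pool.Agent.Q62.QD.Unif

/-!
# The uniform Anderson model at weak disorder: the mean square displacement

`Δ_ω = -Δ + ω` on `ℤ^d`, `d ≥ 3`, `ω_x` iid uniform on `[-c, c]`, `ψ_s = exp(-isΔ_ω) δ_a`. Let

  `M_T = T⁻¹ ∫_0^∞ exp(-s/T) ∑_x (x_j - a_j)² |ψ_s(x)|² ds`

be the time average of the mean square displacement in the direction `j`. For `c ≤ c₀(d)`, with
probability at least `1 - exp(-c^{-1/101})`, simultaneously for all sites `|a| ≤ exp(c^{-1/101})`, all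
directions `j` and all times `(3/2) c^{-2} ≤ T ≤ (1/2) c^{-2-1/40}`,

  `(c² / 3) M_T / (2T) = (2/π) ∫_{|E| < 2d} Im g₁(E) / (Im g₀(E) + 3/(2Tc²)) dE + O(c^{1/310})`.

As `π⁻¹ ∫ Im g₀ = 1`, this is the mean square displacement of the linear Boltzmann process (free flight
with the velocity `2 sin(2πk)` and exponential clocks of the rate `(2c²/3) Im g₀(E)`, the new momentum
being uniform on the energy shell) for the random energy `E` with the law `π⁻¹ Im g₀(E) dE`. For `T`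
much larger than `c^{-2}` it is `2 D̄ T` with `D̄ = (6 / (π c²)) ∫ Im g₁ / Im g₀`: the motion is
diffusive up to the time `c^{-2-1/40}`, in mean square and for one fixed realisation of the disorder.
-/

set_option autoImplicit false

open scoped BigOperators Topology ENNReal
open MeasureTheory Filter

namespace Pool.Agent.Results.MP_562b47_mp.MeanSquareDisplacement

/-- the uniform law on `[-c, c]` -/
noncomputable def unif (c : ℝ) : Measure ℝ :=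
  ENNReal.ofReal (1 / (2 * c)) • volume.restrict (Set.Icc (-c) c)

/-- `(Δ_ω u)(x) = -∑_{|n|=1} (u(x+n) - u(x)) + ω_x u(x)` -/
noncomputable def H {d : ℕ} (ω : (Fin d → ℤ) → ℝ) (u : (Fin d → ℤ) → ℂ) (x : Fin d → ℤ) : ℂ :=
  -∑ i : Fin d, ((u (x + Pi.single i 1) - u x) + (u (x - Pi.single i 1) - u x)) + (ω x : ℂ) * u x

/-- `ψ_s = exp(-isΔ_ω) δ_a`: the solution of `i dψ/ds = Δ_ω ψ` in `ℓ²(ℤ^d)` with `ψ_0 = δ_a` -/
structure IsEvolution {d : ℕ} (ω : (Fin d → ℤ) → ℝ) (a : Fin d → ℤ)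
    (ψ : ℝ → (Fin d → ℤ) → ℂ) : Prop where
  init : ∀ x, ψ 0 x = if x = a then 1 else 0
  ode : ∀ s x, HasDerivAt (fun s => ψ s x) (-Complex.I * H ω (ψ s) x) s
  norm : ∀ s, HasSum (fun x => ‖ψ s x‖ ^ 2) 1

/-- `T⁻¹ ∫_0^∞ exp(-s/T) ∑_x (x_j - a_j)² |ψ_s(x)|² ds` -/
noncomputable def displacement {d : ℕ} (ψ : ℝ → (Fin d → ℤ) → ℂ) (a : Fin d → ℤ) (j : Fin d)
    (T : ℝ) : ℝ≥0∞ :=
  ENNReal.ofReal (1 / T) * ∫⁻ s in Set.Ioi (0 : ℝ), ENNReal.ofReal (Real.exp (-(s / T))) *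
    ∑' x, ENNReal.ofReal (((x j : ℝ) - a j) ^ 2 * ‖ψ s x‖ ^ 2)

/-- `∫_0^1 exp(-is · 2 cos 2πx) dx` -/
noncomputable def p0 (s : ℝ) : ℂ :=
  ∫ x in (0 : ℝ)..1, Complex.exp (Complex.I * ((-s * (2 * Real.cos (2 * Real.pi * x)) : ℝ) : ℂ))

/-- `∫_0^1 sin²(2πx) exp(-is · 2 cos 2πx) dx` -/
noncomputable def p1 (s : ℝ) : ℂ :=
  ∫ x in (0 : ℝ)..1, ((Real.sin (2 * Real.pi * x) ^ 2 : ℝ) : ℂ) *
    Complex.exp (Complex.I * ((-s * (2 * Real.cos (2 * Real.pi * x)) : ℝ) : ℂ))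

/-- the boundary value `∫_{[0,1]^d} (∑ 2 cos 2πk_i - E - i0)⁻¹ dk` -/
noncomputable def g0 (d : ℕ) (E : ℝ) : ℂ :=
  Complex.I * ∫ s in Set.Ioi (0 : ℝ), p0 s ^ d * Complex.exp (Complex.I * (E : ℂ) * s)

/-- the boundary value `∫_{[0,1]^d} sin²(2πk_1) (∑ 2 cos 2πk_i - E - i0)⁻¹ dk` -/
noncomputable def g1 (d : ℕ) (E : ℝ) : ℂ :=
  Complex.I * ∫ s in Set.Ioi (0 : ℝ), p1 s * p0 s ^ (d - 1) * Complex.exp (Complex.I * (E : ℂ) * s)

theorem g0_eq (d : ℕ) (hd : 3 ≤ d) (E : ℝ) : Pool.Agent.Q62.QD.G0 d E = g0 d E :=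
  Pool.Agent.Q62.QD.bvl_of (Pool.Agent.TH794.QE.lim3 _ _
    (Pool.Agent.TH794.QD.hol0 Pool.Agent.Q62.QD.sO d hd) E)

theorem g1_eq (d : ℕ) (hd : 3 ≤ d) (E : ℝ) : Pool.Agent.Q62.QD.G1 d E = g1 d E :=
  Pool.Agent.Q62.QD.bvl_of (Pool.Agent.TH794.QE.lim3 _ _
    (Pool.Agent.TH794.QD.hol1 Pool.Agent.Q62.QD.sO d hd) E)

theorem H_eq {d : ℕ} (ω : (Fin d → ℤ) → ℝ) (u : (Fin d → ℤ) → ℂ) (x : Fin d → ℤ) :
    H ω u x = -Pool.Agent.W788.LD.Spec.S u x + ((2 * d + ω x : ℝ) : ℂ) * u x := by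
  unfold H Pool.Agent.W788.LD.Spec.S
  have h2 : ∑ i : Fin d, ((u (x + Pi.single i 1) - u x) + (u (x - Pi.single i 1) - u x)) =
      ∑ i : Fin d, (u (x + Pi.single i 1) + u (x - Pi.single i 1)) - 2 * (d : ℂ) * u x := by
    rw [Finset.sum_add_distrib, Finset.sum_sub_distrib, Finset.sum_sub_distrib,
      Finset.sum_add_distrib]
    simp
    ring
  rw [h2]
  push_cast
  ring

theorem evo_iff {d : ℕ} (ω : (Fin d → ℤ) → ℝ) (a : Fin d → ℤ)
    (ψ : ℝ → (Fin d → ℤ) → ℂ) : IsEvolution ω a ψ ↔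
      Pool.Agent.TH794.QD.Sol d (fun x => 2 * d + ω x) a ψ := by
  constructor
  · intro h
    refine ⟨h.init, fun s x => ?_, h.norm⟩
    rw [← H_eq]
    exact h.ode s x
  · intro h
    refine ⟨h.init, fun s x => ?_, h.norm⟩
    rw [H_eq]
    exact h.ode s x

theorem unif_var (c : ℝ) (hc : 0 < c) : ∫ s, s ^ 2 ∂(unif c) = c ^ 2 / 3 := by
  unfold unif
  rw [integral_smul_measure, integral_Icc_eq_integral_Ioc,
    ← intervalIntegral.integral_of_le (by linarith)]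
  rw [integral_pow, ENNReal.toReal_ofReal (by positivity), smul_eq_mul]
  field_simp
  norm_num
  ring

/-- **Theorem.** -/
theorem result (d : ℕ) (hd : 3 ≤ d) :
    ((∀ E : ℝ, |E| < 2 * d → 0 < (g1 d E).im ∧ (g1 d E).im ≤ (g0 d E).im) ∧
      ∫ E in Set.Ioo (-(2 * (d : ℝ))) (2 * d), (g0 d E).im = Real.pi) ∧
    ∃ c0 : ℝ, 0 < c0 ∧ ∀ c : ℝ, 0 < c → c ≤ c0 →
      ∃ G : Set ((Fin d → ℤ) → ℝ), MeasurableSet G ∧
        1 - Real.exp (-c ^ (-(1 / 101) : ℝ)) ≤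
          (Measure.infinitePi fun _ : Fin d → ℤ => unif c).real G ∧
        ∀ ω ∈ G, ∀ a : Fin d → ℤ, ‖a‖ ≤ Real.exp (c ^ (-(1 / 101) : ℝ)) →
          (∃ ψ, IsEvolution ω a ψ) ∧
          ∀ ψ, IsEvolution ω a ψ → ∀ j : Fin d,
          ∀ T : ℝ, 3 / 2 * c ^ (-2 : ℝ) ≤ T → T ≤ 1 / 2 * c ^ (-(2 + 1 / 40) : ℝ) →
            displacement ψ a j T ≠ ⊤ ∧
            |c ^ 2 / 3 * ((displacement ψ a j T).toReal / (2 * T)) -
              2 / Real.pi * ∫ E in Set.Ioo (-(2 * (d : ℝ))) (2 * d),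
                (g1 d E).im / ((g0 d E).im + 3 / (2 * T * c ^ 2))| ≤ c ^ (1 / 310 : ℝ) := by
  have hd2 : 2 ≤ d := by omega
  have hO := Pool.Agent.Q62.QD.sO
  refine ⟨⟨fun E hE => ?_, ?_⟩, ?_⟩
  · obtain ⟨κ, hκd⟩ : ∃ κ, κ = min 1 (2 * (d : ℝ) - |E|) := ⟨_, rfl⟩
    have hκ : 0 < κ := by
      rw [hκd]
      exact lt_min one_pos (by linarith)
    have hκ1 : κ ≤ 1 := by rw [hκd]; exact min_le_left _ _
    have hκ2 : κ ≤ 2 * (d : ℝ) - |E| := by rw [hκd]; exact min_le_right _ _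
    have hd0 : (0 : ℝ) ≤ d := Nat.cast_nonneg d
    have hR : Pool.Agent.TH794.QE.RegE d κ E := Or.inr ⟨hd, by linarith⟩
    obtain ⟨m, hm, h1⟩ := Pool.Agent.Q62.QD.G1_low hO d hd2 κ hκ hκ1
    have h2 := h1 E ⟨hR, by linarith⟩
    have h3 := (Pool.Agent.Q62.QD.bvals hO d hd2 κ hκ hκ1 E hR).2.2.2
    rw [g1_eq d hd] at h2 h3
    rw [g0_eq d hd] at h3
    exact ⟨hm.trans_le h2, h3⟩
  · have h1 := Pool.Agent.Q62.QD.G0_tot hO d hd2
    simp only [g0_eq d hd] at h1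
    exact h1
  · obtain ⟨c0, hc0, h⟩ := Pool.Agent.Q62.QD.msd d hd (1 / 3) (by norm_num)
    refine ⟨c0, hc0, fun c hc hcc => ?_⟩
    have e1 : unif c = Pool.Agent.W788.LD.Uni.unif c := rfl
    have hu1 := Pool.Agent.W788.LD.Uni.unif_prob c hc
    have hv : ∫ s, s ^ 2 ∂(Pool.Agent.W788.LD.Uni.unif c) = c ^ 2 / 3 := by
      rw [← e1]
      exact unif_var c hc
    obtain ⟨G, hG, hP, hL⟩ := h c hc hcc (Pool.Agent.W788.LD.Uni.unif c) hu1
      (Pool.Agent.W788.LD.Uni.unif_bdd c) (Pool.Agent.W788.LD.Uni.unif_mean c hc) (c ^ 2 / 3) hv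
      (by linarith)
    refine ⟨G, hG, hP, fun ω hω a ha => ?_⟩
    obtain ⟨hωb, hL'⟩ := hL ω hω
    refine ⟨?_, fun ψ hψ j T hT1 hT2 => ?_⟩
    · obtain ⟨ψ, hψ⟩ := Pool.Agent.TH794.QD.exists_sol (fun x => 2 * (d : ℝ) + ω x)
        (2 * d + c) (fun x => by
          refine (abs_add_le _ _).trans ?_
          rw [abs_of_nonneg (by positivity : (0 : ℝ) ≤ 2 * d)]
          have := hωb x
          linarith) a
      exact ⟨ψ, (evo_iff ω a ψ).2 hψ⟩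
    · have e2 : c ^ (-2 : ℝ) = 1 / c ^ 2 := by
        rw [Real.rpow_neg hc.le, one_div]
        norm_num
      have e3 : c ^ (-(2 + 1 / 40) : ℝ) = 1 / c ^ (81 / 40 : ℝ) := by
        rw [Real.rpow_neg hc.le, one_div]
        norm_num
      have hT1' : 1 / (2 * (c ^ 2 / 3)) ≤ T := by
        refine le_of_eq_of_le ?_ hT1
        rw [e2]
        field_simp
      have hT2' : T ≤ 1 / (2 * c ^ (81 / 40 : ℝ)) := by
        refine hT2.trans (le_of_eq ?_)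
        rw [e3]
        field_simp
      have h4 := hL' a ha ψ ((evo_iff ω a ψ).1 hψ) T hT1' hT2' j
      have e4 : displacement ψ a j T = Pool.Agent.Q62.QD.Mbar ψ a j T := by
        unfold displacement Pool.Agent.Q62.QD.Mbar Pool.Agent.Q62.QD.M2
        rfl
      rw [e4]
      refine ⟨h4.1, ?_⟩
      have hT0 : 0 < T := lt_of_lt_of_le (by positivity) hT1'
      have e5 : (∫ E in Set.Ioo (-(2 * (d : ℝ))) (2 * d),
          (g1 d E).im / ((g0 d E).im + 3 / (2 * T * c ^ 2))) =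
          ∫ E in Pool.Agent.Q62.QD.Ba d, Pool.Agent.TH794.QE.Pg (Pool.Agent.Q62.QD.G0 d)
            (Pool.Agent.Q62.QD.G1 d) (1 / (2 * T * (c ^ 2 / 3))) E := by
        unfold Pool.Agent.Q62.QD.Ba Pool.Agent.TH794.QE.Pg
        refine integral_congr_ae (Filter.Eventually.of_forall fun E => ?_)
        simp only
        rw [g0_eq d hd, g1_eq d hd]
        have e6 : 1 / (2 * T * (c ^ 2 / 3)) = 3 / (2 * T * c ^ 2) := by
          field_simp
        rw [e6]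
        congr 1
        ring
      rw [e5]
      exact h4.2

end Pool.Agent.Results.MP_562b47_mp.MeanSquareDisplacement
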