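import Pool.Agent.H5R2.NB.FIN
import Pool.Agent.H5R2.NB.LAW

/-!
# No ballistic transport for the Anderson model, in all dimensions and at all disorders

`Δ_ω = -Δ + ω` on `ℤ^d` with iid `ω_j` of any law with a bounded density, for instance uniform on
`[-c, c]`, any `c > 0`. The wave packet `ψ(t) = e^{-itΔ_ω} δ_0` satisfies
`E ∑_x |x|² |ψ(t, x)|² = o(t²)` as `t → ∞`.
-/

set_option autoImplicit false

open MeasureTheory Filter Topology
open scoped ENNReal NNReal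

namespace Pool.Agent.Results.MP_562b47_mp.NoBallisticTransport

/-- the operator of the problem, `(Δ_ω u)(j) = -∑_{|n|=1} (u(j+n) - u(j)) + ω_j u(j)` (the unit
vectors `n` are `± e_i`) -/
noncomputable def op {d : ℕ} (ω : (Fin d → ℤ) → ℝ) (u : (Fin d → ℤ) → ℂ) (j : Fin d → ℤ) : ℂ :=
  -(∑ i : Fin d, ((u (j + Pi.single i 1) - u j) + (u (j - Pi.single i 1) - u j))) + (ω j : ℂ) * u j

/-- `ψ(t) = e^{-itΔ_ω} δ_0`: the solution of `i ∂_t ψ = Δ_ω ψ`, `ψ(0) = δ_0`, with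
`∑_x |ψ(t, x)|² = 1` at all times (there is exactly one, see the theorem) -/
structure IsWavePacket {d : ℕ} (ω : (Fin d → ℤ) → ℝ) (ψ : ℝ → (Fin d → ℤ) → ℂ) : Prop where
  init : ψ 0 = Pi.single 0 1
  schrodinger : ∀ t x, HasDerivAt (fun s => ψ s x) (-Complex.I * op ω (ψ t) x) t
  norm : ∀ t, HasSum (fun x => ‖ψ t x‖ ^ 2) 1

/-- the law of iid variables with law `μ` on `ℤ^d` -/
noncomputable def iid (d : ℕ) (μ : Measure ℝ) : Measure ((Fin d → ℤ) → ℝ) :=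
  Measure.infinitePi fun _ => μ

/-- `E ∑_x |x|² |ψ_ω(t, x)|²`, the mean square displacement at time `t`
(`|x|² = x_1² + ... + x_d²`) -/
noncomputable def displacement {d : ℕ} (μ : Measure ℝ)
    (ψ : ((Fin d → ℤ) → ℝ) → ℝ → (Fin d → ℤ) → ℂ) (t : ℝ) : ℝ≥0∞ :=
  ∫⁻ ω, ∑' x : Fin d → ℤ, ENNReal.ofReal (∑ i : Fin d, (x i : ℝ) ^ 2) * ‖ψ ω t x‖ₑ ^ 2 ∂(iid d μ)

/-- the uniform law on `[-c, c]`, of density `(2c)⁻¹` -/
noncomputable def uniformLaw (c : ℝ) : Measure ℝ :=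
  ENNReal.ofReal (2 * c)⁻¹ • (volume : Measure ℝ).restrict (Set.Icc (-c) c)

open Pool.Agent.H5R2.NB Pool.Agent.H5R2.NB.ALL

theorem isEvo_iff {d : ℕ} (ω : (Fin d → ℤ) → ℝ) (ψ : ℝ → (Fin d → ℤ) → ℂ) :
    GEN.IsEvo (-1) (fun x => 2 * d + 1 * ω x) ψ ↔ IsWavePacket ω ψ := by
  have e : ∀ t x, hopf (-1) (ψ t) x + (((2 * d + 1 * ω x : ℝ)) : ℂ) * ψ t x = op ω (ψ t) x := by
    intro t x
    have := FIN.hop_eq ω (ψ t) x
    rw [one_mul]
    exact this
  constructor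
  · intro h
    refine ⟨h.init, fun t x => ?_, h.norm⟩
    have := h.deriv t x
    rw [e] at this
    exact this
  · intro h
    refine ⟨h.init, fun t x => ?_, h.norm⟩
    have := h.schrodinger t x
    rw [← e] at this
    exact this

/-- **No ballistic transport.**

(1) For every potential `ω` there is exactly one wave packet.

(2) In every dimension `d` and for every single-site law `μ` of bounded density (bounded support is
not needed) the mean square displacement is `o(t²)` as `t → ∞`.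

(3) In particular this holds for the uniform law on `[-c, c]` (a probability measure), for every
`c > 0`. -/
theorem result (d : ℕ) :
    (∀ ω : (Fin d → ℤ) → ℝ, ∃! ψ, IsWavePacket ω ψ) ∧
    (∀ (μ : Measure ℝ) [IsProbabilityMeasure μ] (C : ℝ≥0), μ ≤ C • volume →
      ∀ ψ : ((Fin d → ℤ) → ℝ) → ℝ → (Fin d → ℤ) → ℂ, (∀ ω, IsWavePacket ω (ψ ω)) →
        Tendsto (fun t : ℝ => displacement μ ψ t / ENNReal.ofReal (t ^ 2)) atTop (𝓝 0)) ∧
    ∀ c : ℝ, 0 < c → uniformLaw c Set.univ = 1 ∧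
      ∀ ψ : ((Fin d → ℤ) → ℝ) → ℝ → (Fin d → ℤ) → ℂ, (∀ ω, IsWavePacket ω (ψ ω)) →
        Tendsto (fun t : ℝ => displacement (uniformLaw c) ψ t / ENNReal.ofReal (t ^ 2)) atTop
          (𝓝 0) := by
  have h2 : ∀ (μ : Measure ℝ) [IsProbabilityMeasure μ] (C : ℝ≥0), μ ≤ C • volume →
      ∀ ψ : ((Fin d → ℤ) → ℝ) → ℝ → (Fin d → ℤ) → ℂ, (∀ ω, IsWavePacket ω (ψ ω)) →
        Tendsto (fun t : ℝ => displacement μ ψ t / ENNReal.ofReal (t ^ 2)) atTop (𝓝 0) := by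
    intro μ _ C hC ψ hψ
    have hg : Measurable (fun r : ℝ => (2 * d : ℝ) + 1 * r) := by fun_prop
    exact GEN.main a_EX a_UN a_CV a_MAIN (-1) μ (fun r => 2 * d + 1 * r) hg _
      (LAW.map_affine_le μ C hC (2 * d) 1 one_ne_zero) ψ (fun ω => (isEvo_iff ω (ψ ω)).2 (hψ ω))
  refine ⟨fun ω => ?_, h2, fun c hc => ?_⟩
  · obtain ⟨ψ, h1, h3⟩ := GEN.existsUnique_evo a_EX a_UN (-1) (fun x => 2 * d + 1 * ω x)
    exact ⟨ψ, (isEvo_iff ω ψ).1 h1, fun φ hφ => h3 φ ((isEvo_iff ω φ).2 hφ)⟩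
  · have := LAW.uniform_prob c hc
    have : IsProbabilityMeasure (uniformLaw c) := this
    exact ⟨measure_univ, h2 (uniformLaw c) _ (LAW.uniform_le c)⟩

end Pool.Agent.Results.MP_562b47_mp.NoBallisticTransport
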